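import Pool.Agent.CoordMaps.PLConverse

namespace Pool.Agent.Results.MP_0907b2_gt.PLClosure

open Pool.Agent.CoordMaps

/-- (1) In every dimension `n` a homeomorphism of `ℝⁿ` is approximable by the group generated by the
type A maps if and only if it is approximable by piecewise linear homeomorphisms;
(2) equivalently, for any `1 ≤ k ≤ ∞`, if and only if it is approximable by `C^k` diffeomorphisms;
(3) every homeomorphism of `ℝ³` with one of these properties is approximable by the group generated
by the type B maps. In particular every piecewise linear homeomorphism of `ℝⁿ` is approximable by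
type A maps, and for `n = 3` also by type B maps. -/
theorem result :
    (∀ (n : ℕ) (h : Homeo n),
      ApproxBy (GA n : Set (Homeo n)) h ↔ ApproxBy (PiecewiseAffine n) h) ∧
    (∀ (n : ℕ) (k : ℕ∞), 1 ≤ k → ∀ h : Homeo n,
      (ApproxBy (GA n : Set (Homeo n)) h ↔ ApproxBy (Diffeo n k) h)) ∧
    (∀ h : Homeo 3, ApproxBy (PiecewiseAffine 3) h → ApproxBy (GB : Set (Homeo 3)) h) := by
  refine ⟨fun n h => approx_iff_pl h, fun n k hk h => approx_iff hk h, fun h H => ?_⟩
  exact H.of_subset_cl fun g hg => cl_le_of_le coord3_le (piecewiseAffine_mem hg)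

end Pool.Agent.Results.MP_0907b2_gt.PLClosure
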